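import Mathlib
import Pool.Agent.R469.Runs

set_option autoImplicit false

/-!
The integers whose finite Collatz height is shared by a neighbour: their natural density exists and is
equal to the natural density of the integers of finite height.
-/

namespace Pool.Agent.Results.MP_c516eb_nt.PairedIntegers

open Filter Topology

/-- The Collatz map. -/
def C (n : ℕ) : ℕ := if n % 2 = 0 then n / 2 else 3 * n + 1

open Classical in
/-- The height `h(n)`: the least `k ≥ 0` with `C^(k)(n) = 1`, and `⊤ = ∞` if there is none. -/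
noncomputable def height (n : ℕ) : ℕ∞ :=
  if h : ∃ k : ℕ, C^[k] n = 1 then ((Nat.find h : ℕ) : ℕ∞) else ⊤

/-- `n` is paired (`n ∈ E`): `h(n) < ∞` and `n ≥ 2` and `h(n) = h(n-1)`, or `h(n) = h(n+1)`. -/
def Paired (n : ℕ) : Prop :=
  height n ≠ ⊤ ∧ ((2 ≤ n ∧ height n = height (n - 1)) ∨ height n = height (n + 1))

/-- The positive integers with the property `P` have the natural density `l`. -/
def HasDensity (P : ℕ → Prop) (l : ℝ) : Prop :=
  Tendsto (fun N : ℕ => ({n : ℕ | 1 ≤ n ∧ n ≤ N ∧ P n}.ncard : ℝ) / N) atTop (𝓝 l)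

/-- The lower asymptotic density of the set of the positive integers with the property `P`. -/
noncomputable def lowerDensity (P : ℕ → Prop) : ℝ :=
  liminf (fun N : ℕ => ({n : ℕ | 1 ≤ n ∧ n ≤ N ∧ P n}.ncard : ℝ) / N) atTop

/-- All the integers `m ≥ 1` with `|m - n| ≤ r` have the same height as `n`. -/
def SameHeightUpTo (r : ℝ) (n : ℕ) : Prop :=
  ∀ m : ℕ, 1 ≤ m → |(m : ℝ) - n| ≤ r → height m = height n

/-- shifting a set of density one by a constant -/
lemma shift_one {P : ℕ → Prop} (k : ℕ) (h : HasDensity P 1) : HasDensity (fun n => P (n - k)) 1 := by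
  unfold HasDensity at *
  have hk : Tendsto (fun N : ℕ => (k : ℝ) / N) atTop (𝓝 0) :=
    tendsto_const_nhds.div_atTop tendsto_natCast_atTop_atTop
  have h1 := h.sub hk
  rw [sub_zero] at h1
  refine tendsto_of_tendsto_of_tendsto_of_le_of_le h1 tendsto_const_nhds (fun N => ?_) (fun N => ?_)
  · show ({n : ℕ | 1 ≤ n ∧ n ≤ N ∧ P n}.ncard : ℝ) / N - k / N ≤
      ({n : ℕ | 1 ≤ n ∧ n ≤ N ∧ P (n - k)}.ncard : ℝ) / N
    rw [← sub_div]
    refine div_le_div_of_nonneg_right ?_ (Nat.cast_nonneg N)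
    have hf1 : {n : ℕ | 1 ≤ n ∧ n ≤ N ∧ P (n - k)}.Finite :=
      (Set.finite_Icc 1 N).subset fun n hn => ⟨hn.1, hn.2.1⟩
    have hf2 : (Set.Ioc (N - k) N).Finite := Set.finite_Ioc _ _
    have h2 : {n : ℕ | 1 ≤ n ∧ n ≤ N ∧ P n} ⊆
        (fun n => n - k) '' {n : ℕ | 1 ≤ n ∧ n ≤ N ∧ P (n - k)} ∪ Set.Ioc (N - k) N := by
      rintro n ⟨hn1, hn2, hn3⟩
      by_cases hc : n ≤ N - k
      · left
        refine ⟨n + k, ⟨by omega, by omega, ?_⟩, by simp⟩
        rw [Nat.add_sub_cancel]; exact hn3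
      · right
        exact ⟨by omega, hn2⟩
    have h3 := Set.ncard_le_ncard h2 ((hf1.image _).union hf2)
    have h4 := Set.ncard_union_le ((fun n => n - k) '' {n : ℕ | 1 ≤ n ∧ n ≤ N ∧ P (n - k)})
      (Set.Ioc (N - k) N)
    have h5 := Set.ncard_image_le (f := fun n => n - k) hf1
    have h6 : (Set.Ioc (N - k) N).ncard ≤ k := by
      rw [← Finset.coe_Ioc, Set.ncard_coe_finset, Nat.card_Ioc]; omega
    have h7 : {n : ℕ | 1 ≤ n ∧ n ≤ N ∧ P n}.ncard ≤
        {n : ℕ | 1 ≤ n ∧ n ≤ N ∧ P (n - k)}.ncard + k := by omega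
    have h8 : ({n : ℕ | 1 ≤ n ∧ n ≤ N ∧ P n}.ncard : ℝ) ≤
        ({n : ℕ | 1 ≤ n ∧ n ≤ N ∧ P (n - k)}.ncard : ℝ) + k := by exact_mod_cast h7
    linarith
  · show ({n : ℕ | 1 ≤ n ∧ n ≤ N ∧ P (n - k)}.ncard : ℝ) / N ≤ 1
    refine div_le_one_of_le₀ ?_ (Nat.cast_nonneg N)
    have h2 : {n : ℕ | 1 ≤ n ∧ n ≤ N ∧ P (n - k)} ⊆ Set.Icc 1 N := fun n hn => ⟨hn.1, hn.2.1⟩
    have h3 := Set.ncard_le_ncard h2 (Set.finite_Icc 1 N)
    rw [← Finset.coe_Icc, Set.ncard_coe_finset, Nat.card_Icc] at h3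
    have : {n : ℕ | 1 ≤ n ∧ n ≤ N ∧ P (n - k)}.ncard ≤ N := by omega
    exact_mod_cast this

open Pool.Agent.R469 in
/-- Let `δ` be the natural density of the integers of finite height. It exists, `0 < δ ≤ 1`, and `δ = 1`
if and only if every positive integer has finite height.
(1) The set `E` of the paired integers has the natural density `δ`; so its lower density is `δ`, and the
inequality of Q1 (lower density larger than `1/2`) holds if and only if `δ > 1/2`.
(2) For every fixed `r`, almost all integers `n` have the same height (finite or infinite) as all the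
`m` with `|m - n| ≤ r`. In particular almost all integers of finite height are paired, on both
sides. -/
theorem result : ∃ δ : ℝ, 0 < δ ∧ δ ≤ 1 ∧ (δ = 1 ↔ ∀ n : ℕ, 1 ≤ n → height n ≠ ⊤) ∧
    HasDensity (fun n => height n ≠ ⊤) δ ∧
    HasDensity Paired δ ∧ lowerDensity Paired = δ ∧ (1 / 2 < lowerDensity Paired ↔ 1 / 2 < δ) ∧
    ∀ r : ℝ, HasDensity (SameHeightUpTo r) 1 := by
  obtain ⟨δ, h0, hle, h01, h1, h2⟩ := Runs.dens
  have hruns : HasDensity (fun n => ∀ h : ℕ, (h : ℝ) ≤ Runs.R n → height (n + h) = height n) 1 := by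
    have h3 := Runs.runs
    refine Pool.Agent.H499R2.CO.HD_congr h3 h3 fun n _ hE => ⟨fun _ h hh => (hE h hh).1, fun _ => hE⟩
  -- both sides, up to a fixed distance
  have hboth : ∀ r : ℝ, HasDensity (SameHeightUpTo r) 1 := by
    intro r
    obtain ⟨k, hk⟩ := exists_nat_ge r
    obtain ⟨N0, hN0⟩ := (Runs.R_tendsto.eventually_ge_atTop (2 * k : ℝ)).exists_forall_of_atTop
    have h4 := shift_one k (Pool.Agent.H499R2.HL.HD_and hruns (Pool.Agent.H499R2.HL.HD_large N0))
    have h5 := Pool.Agent.H499R2.HL.HD_and h4 (Pool.Agent.H499R2.HL.HD_large k)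
    refine Pool.Agent.H499R2.CO.HD_congr h5 h5 fun n _ hE => ⟨fun _ => ?_, fun _ => hE⟩
    obtain ⟨⟨hr, hn0⟩, hnk⟩ := hE
    have hR : (2 * k : ℝ) ≤ Runs.R (n - k) := hN0 _ hn0
    have hnk' : k ≤ n := by exact_mod_cast hnk
    have key : ∀ m : ℕ, n - k ≤ m → m ≤ n + k → height m = height (n - k) := by
      intro m hm1 hm2
      have h6 := hr (m - (n - k)) (by
        have : m - (n - k) ≤ 2 * k := by omega
        have : ((m - (n - k) : ℕ) : ℝ) ≤ 2 * k := by exact_mod_cast this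
        linarith)
      rwa [show n - k + (m - (n - k)) = m by omega] at h6
    intro m _ hm
    have hm' := abs_le.1 (hm.trans hk)
    have h7 : m ≤ n + k := by
      have : (m : ℝ) ≤ n + k := by linarith [hm'.2]
      exact_mod_cast this
    have h8 : n ≤ m + k := by
      have : (n : ℝ) ≤ m + k := by linarith [hm'.1]
      exact_mod_cast this
    rw [key m (by omega) h7, key n (by omega) (by omega)]
  have hP : HasDensity Paired δ := by
    refine Pool.Agent.H499R2.CO.HD_congr (hboth 1) h1 fun n hn hs => ?_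
    have h3 : height (n + 1) = height n := hs (n + 1) (by omega) (by push_cast; simp)
    exact ⟨fun h => ⟨h, Or.inr h3.symm⟩, fun h => h.1⟩
  have hl : lowerDensity Paired = δ := Tendsto.liminf_eq hP
  exact ⟨δ, h0, hle, h01, h1, hP, hl, by rw [hl], hboth⟩

end Pool.Agent.Results.MP_c516eb_nt.PairedIntegers
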